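import Pool.Graph.R_pool_sql_team_seeded_47a924f7.T6.H15.BB.Defs

/-!
# Cycles over `K` on varieties which are defined over `k₀`: definitions

`𝒱₀` is a class of smooth proper varieties over a field `k₀` (the algebraic numbers, for example),
with Chow groups `C₀` and a Weil cohomology theory `W₀`, and `𝒱`, `C`, `W` are the same over an
extension `K` of `k₀` (the complex numbers).
-/

open CategoryTheory CategoryTheory.Limits AlgebraicGeometry
open Pool.Agent.H914 Pool.Agent.H914.VarClass Pool.Agent.H914.VarClass.Obj Pool.Agent.R903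
open Pool.Agent.T6.H15.BB

universe u v w u' v' w' t

namespace Pool.Agent.H837.Const

section Alg

/-- `T` is zero on the subspace `S`. -/
def KillsSub {K : Type w} [Field K] {V : Type w} [Ring V] [Algebra K V] {V' : Type w} [Ring V']
    [Algebra K V'] (S : Submodule K V) (T : V →ₗ[K] V') : Prop := ∀ v ∈ S, T v = 0

/-- Multiplication by the `n`-th power of `x` is injective on `S`. -/
def MulInj {K : Type w} [Field K] {V : Type w} [Ring V] [Algebra K V] (S : Submodule K V)
    (x : V) (n : ℕ) : Prop := ∀ a ∈ S, x ^ n * a = 0 → a = 0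

/-- The degrees of all products `x y` are zero. -/
def NumTrivial {A : Type v} [CommRing A] [Algebra ℚ A] (deg : A →ₗ[ℚ] ℚ) (x : A) : Prop :=
  ∀ y, deg (x * y) = 0

/-- The degree of `x^n` is not zero. -/
def PowDegNeZero {A : Type v} [CommRing A] [Algebra ℚ A] (deg : A →ₗ[ℚ] ℚ) (x : A) (n : ℕ) :
    Prop := deg (x ^ n) ≠ 0

/-- The degree of `x` is one. -/
def DegOne {A : Type v} [CommRing A] [Algebra ℚ A] (deg : A →ₗ[ℚ] ℚ) (x : A) : Prop := deg x = 1

/-- The subspace generated by the elements with the property `p`. -/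
def spanCH {A : Type v} [CommRing A] [Algebra ℚ A] (p : A → Prop) : Submodule ℚ A :=
  Submodule.span ℚ {x | p x}

/-- The preimage of the subspace `S`. -/
def preimage {A : Type v} [CommRing A] [Algebra ℚ A] {B : Type v'} [CommRing B] [Algebra ℚ B]
    (e : A →ₐ[ℚ] B) (S : Submodule ℚ B) : Submodule ℚ A := S.comap e.toLinearMap

/-- `f' T = T' f`. -/
def Intertwines {A : Type v} [CommRing A] [Algebra ℚ A] {A' : Type v} [CommRing A'] [Algebra ℚ A']
    {B : Type v'} [CommRing B] [Algebra ℚ B] {B' : Type v'} [CommRing B'] [Algebra ℚ B']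
    (f : A →ₐ[ℚ] B) (f' : A' →ₐ[ℚ] B') (T : A →ₗ[ℚ] A') (T' : B →ₗ[ℚ] B') : Prop :=
  ∀ x, f' (T x) = T' (f x)

/-- `e` is injective, it respects the degree of zero-cycles, the codimension, and homological
triviality. -/
structure IsEmbedding {A : Type v} [CommRing A] [Algebra ℚ A] {B : Type v'} [CommRing B]
    [Algebra ℚ B] (deg : A →ₗ[ℚ] ℚ) (deg' : B →ₗ[ℚ] ℚ) (gr : ℕ → Submodule ℚ A)
    (gr' : ℕ → Submodule ℚ B) {H : Type w} [Ring H] {H' : Type w'} [Ring H'] (cl : A →+* H)
    (cl' : B →+* H') (e : A →ₐ[ℚ] B) : Prop where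
  injective : ∀ x, e x = 0 → x = 0
  deg : ∀ x, deg' (e x) = deg x
  gr : ∀ i x, MemSub (gr' i) (e x) ↔ MemSub (gr i) x
  cl : ∀ x, MapsToZero cl' (e x) ↔ MapsToZero cl x

end Alg

section Base

variable {k : Type u} [Field k] {𝒱 : VarClass k} {C : ChowTheory.{u, v} 𝒱}

/-- The correspondence `γ` from `X` to `Y` acts as zero on `H^m(X)`. -/
def Kill (W : WeilTheory.{u, v, w} C) {X Y : 𝒱.Obj} (γ : C.CH (X.prod Y)) (m : ℕ) : Prop :=
  KillsSub (W.gr X m) (W.act γ)

/-- The correspondence `γ` from `X` to `Y` maps `CH^j(X)` to `CH^i(Y)`: it lies in `CH^l(X × Y)` for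
`l = i - j + dim X`. -/
def IsCorr (C : ChowTheory.{u, v} 𝒱) {X Y : 𝒱.Obj} (γ : C.CH (X.prod Y)) (j i : ℕ) : Prop :=
  ∃ l, j + l = i + X.dim ∧ InCH C (X.prod Y) l γ

/-- Numerical and homological equivalence coincide on `X`. -/
def HomEqNum (W : WeilTheory.{u, v, w} C) (X : 𝒱.Obj) : Prop :=
  ∀ i x, InCH C X i x → NumTrivial (C.deg X) x → MapsToZero (W.cl X) x

/-- The hard Lefschetz theorem for `X`: there is a divisor class `D` (the class of an ample divisor)
with `D^d ≠ 0`, where `d = dim X`, such that the multiplication by `D^(d-b)` is injective on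
`H^b(X)` for `b < d`. -/
def HardLefschetz (W : WeilTheory.{u, v, w} C) (X : 𝒱.Obj) : Prop :=
  ∃ D, InCH C X 1 D ∧ PowDegNeZero (C.deg X) D X.dim ∧
    ∀ b < X.dim, MulInj (W.gr X b) (W.cl X D) (X.dim - b)

/-- A family of subspaces of the Chow groups: `N X j` is a subspace of `CH^j(X)`. -/
abbrev Kernels (C : ChowTheory.{u, v} 𝒱) : Type (max (u + 1) v) :=
  ∀ X : 𝒱.Obj, ℕ → Submodule ℚ (C.CH X)

/-- The formal properties of the kernels `N X j` of the Abel–Jacobi maps on the homologically trivial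
classes in `CH^j(X)`: they are respected by correspondences, a correspondence which acts as zero
on `H^(2j-1)(X)` maps all homologically trivial classes in `CH^j(X)` to the kernel, and the
Abel–Jacobi maps are injective for divisors (Abel's theorem). -/
structure IsAJKernel (W : WeilTheory.{u, v, w} C) (N : Kernels C) : Prop where
  hom : ∀ X j x, MemSub (N X j) x → HomTrivial W X j x
  corr : ∀ (X Y : 𝒱.Obj) (γ : C.CH (X.prod Y)) (j i : ℕ) (x : C.CH X), IsCorr C γ j i →
    MemSub (N X j) x → MemSub (N Y i) (corrAct C γ x)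
  kills : ∀ (X Y : 𝒱.Obj) (γ : C.CH (X.prod Y)) (j i m : ℕ) (x : C.CH X), IsCorr C γ j i →
    m + 1 = 2 * j → Kill W γ m → HomTrivial W X j x → MemSub (N Y i) (corrAct C γ x)
  divisor : ∀ X x, MemSub (N X 1) x → x = 0

/-- The type of the families of subspaces of the Chow groups of the varieties `V X`: here `F X j ν`
is a subspace of `CH^j(V X)`. -/
abbrev FamilyOn (C : ChowTheory.{u, v} 𝒱) {ι : Type t} (V : ι → 𝒱.Obj) : Type (max t v) :=
  ∀ X : ι, ℕ → ℕ → Submodule ℚ (C.CH (V X))

/-- `F` is a **Bloch–Beilinson filtration for the varieties** `V X`: conditions 1 to 4 of the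
problem, for the Chow groups of these varieties and all the correspondences between them, with
`F^2` the kernel of the Abel–Jacobi map. -/
structure IsBBAJ (W : WeilTheory.{u, v, w} C) (N : Kernels C) {ι : Type t} (V : ι → 𝒱.Obj)
    (F : FamilyOn C V) : Prop where
  anti : ∀ X j ν x, MemSub (F X j (ν + 1)) x → MemSub (F X j ν) x
  zero : ∀ X j x, MemSub (F X j 0) x ↔ InCH C (V X) j x
  one : ∀ X j x, MemSub (F X j 1) x ↔ HomTrivial W (V X) j x
  two : ∀ X j x, MemSub (F X j 2) x ↔ MemSub (N (V X) j) x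
  top : ∀ X j x, MemSub (F X j (j + 1)) x → x = 0
  corr : ∀ (X Y : ι) (γ : C.CH ((V X).prod (V Y))) (j i ν : ℕ) (x : C.CH (V X)), IsCorr C γ j i →
    MemSub (F X j ν) x → MemSub (F Y i ν) (corrAct C γ x)
  motivic : ∀ (X Y : ι) (γ : C.CH ((V X).prod (V Y))) (j i m ν : ℕ) (x : C.CH (V X)),
    IsCorr C γ j i → m + ν = 2 * j → Kill W γ m → MemSub (F X j ν) x →
    MemSub (F Y i (ν + 1)) (corrAct C γ x)

/-- The vertical classes on `T × X`: those which come from `D × X` by a morphism `D → T` with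
`dim D < dim T`. They vanish on the generic fibre of `T × X → T`. -/
noncomputable def vertical (C : ChowTheory.{u, v} 𝒱) (T X : 𝒱.Obj) : Submodule ℚ (C.CH (T.prod X)) :=
  spanCH fun z => ∃ (D : 𝒱.Obj) (f : D ⟶ T) (w : C.CH (D.prod X)), D.dim < T.dim ∧
    applyLin (C.push (lift (fst D X ≫ f) (snd D X))) w = z

end Base

section Extension

variable {k₀ : Type u} [Field k₀] {𝒱₀ : VarClass k₀} (C₀ : ChowTheory.{u, v} 𝒱₀)
  {K : Type u'} [Field K] {𝒱 : VarClass K} (C : ChowTheory.{u', v'} 𝒱)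

/-- Extension of the base field from `k₀` to `K`: the varieties `X ⊗ K`, the morphisms `f ⊗ K`, and
the homomorphisms `CH(X) → CH(X ⊗ K)`. -/
structure BaseExtension where
  obj : 𝒱₀.Obj → 𝒱.Obj
  map : ∀ {X Y : 𝒱₀.Obj}, (X ⟶ Y) → (obj X ⟶ obj Y)
  ch : ∀ X : 𝒱₀.Obj, C₀.CH X →ₐ[ℚ] C.CH (obj X)

variable {C₀ C}

/-- The isomorphism `(X × Y) ⊗ K → (X ⊗ K) × (Y ⊗ K)`. -/
noncomputable def BaseExtension.comparison (E : BaseExtension C₀ C) (X Y : 𝒱₀.Obj) :
    E.obj (X.prod Y) ⟶ (E.obj X).prod (E.obj Y) := lift (E.map (fst X Y)) (E.map (snd X Y))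

/-- The correspondence from `X ⊗ K` to `Y ⊗ K` given by a correspondence from `X` to `Y`. -/
noncomputable def BaseExtension.corr (E : BaseExtension C₀ C) (X Y : 𝒱₀.Obj)
    (γ : C₀.CH (X.prod Y)) : C.CH ((E.obj X).prod (E.obj Y)) :=
  applyLin (C.push (E.comparison X Y)) (E.ch (X.prod Y) γ)

/-- The classes on `X` whose image on `X ⊗ K` lies in `N (X ⊗ K) j`. -/
def BaseExtension.restrict (E : BaseExtension C₀ C) (N : Kernels C) : Kernels C₀ :=
  fun X j => preimage (E.ch X) (N (E.obj X) j)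

/-- The properties of the extension of the base field which are used. -/
structure IsExtension (W₀ : WeilTheory.{u, v, w} C₀) (W : WeilTheory.{u', v', w'} C)
    (E : BaseExtension C₀ C) : Prop where
  map_id : ∀ X, E.map (𝟙 X) = 𝟙 (E.obj X)
  map_comp : ∀ {X Y Z : 𝒱₀.Obj} (f : X ⟶ Y) (g : Y ⟶ Z), E.map (f ≫ g) = E.map f ≫ E.map g
  isIso : ∀ X Y, IsIso (E.comparison X Y)
  dim : ∀ X, (E.obj X).dim = X.dim
  ch : ∀ X, IsEmbedding (C₀.deg X) (C.deg (E.obj X)) (C₀.gr X) (C.gr (E.obj X)) (W₀.cl X)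
    (W.cl (E.obj X)) (E.ch X)
  pull : ∀ {X Y : 𝒱₀.Obj} (f : X ⟶ Y),
    Intertwines (E.ch Y) (E.ch X) (C₀.pull f).toLinearMap (C.pull (E.map f)).toLinearMap
  push : ∀ {X Y : 𝒱₀.Obj} (f : X ⟶ Y), Intertwines (E.ch X) (E.ch Y) (C₀.push f) (C.push (E.map f))
  /-- `γ` acts as zero on `H^m(X)` if and only if `γ ⊗ K` acts as zero on `H^m(X ⊗ K)` -/
  kill : ∀ X Y (γ : C₀.CH (X.prod Y)) m, Kill W (E.corr X Y γ) m ↔ Kill W₀ γ m

/-- `τ` has the properties of the class of a `K`-valued point of `T` over the generic point of `T`: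
it is a zero-cycle of degree one on `T ⊗ K`, and if the restriction of a class on `T × X` to the
fibre over this point is zero, then the class is vertical. The restriction of `y` to the fibre is
`y_* τ`, where `y` is considered as a correspondence from `T` to `X`. -/
structure IsGenericPoint (E : BaseExtension C₀ C) (T : 𝒱₀.Obj) (τ : C.CH (E.obj T)) : Prop where
  mem : InCH C (E.obj T) (E.obj T).dim τ
  deg : DegOne (C.deg (E.obj T)) τ
  vertical : ∀ (X : 𝒱₀.Obj) (y : C₀.CH (T.prod X)), corrAct C (E.corr T X y) τ = 0 →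
    MemSub (vertical C₀ T X) y

/-- Every class `x` on a variety `X ⊗ K` is the restriction of a class `y` on `T × X` to the fibre
over a `K`-valued point over the generic point of `T`, for some `T` (a model of the field of
definition of `x`). -/
def HasSpreads (E : BaseExtension C₀ C) : Prop :=
  ∀ X i x, InCH C (E.obj X) i x → ∃ (T : 𝒱₀.Obj) (τ : C.CH (E.obj T)), IsGenericPoint E T τ ∧
    ∃ y, InCH C₀ (T.prod X) i y ∧ corrAct C (E.corr T X y) τ = x

end Extension

end Pool.Agent.H837.Const
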