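import Pool.Graph.R_pool_sql_team_seeded_47a924f7.T6.H15.BB.Poly
import Pool.Agent.H837.Const.Defs

/-!
# Extension of the base field and correspondences
-/

open CategoryTheory CategoryTheory.Limits AlgebraicGeometry
open Pool.Agent.H914 Pool.Agent.H914.VarClass Pool.Agent.H914.VarClass.Obj Pool.Agent.R903
open Pool.Agent.T6.H15.BB

universe u v w u' v' w' t

namespace Pool.Agent.H837.Const

section Base

variable {k : Type u} [Field k] {𝒱 : VarClass k} {C : ChowTheory.{u, v} 𝒱}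

lemma pull_push_iso {A B T : 𝒱.Obj} (φ : A ⟶ B.prod T) [IsIso φ] (y : C.CH A) :
    C.pull φ (C.push φ y) = y := by
  apply C.push_injective φ
  rw [C.push_pull_iso]

/-- base change for isomorphisms -/
lemma push_pull_of_iso {A B T A' B' T' : 𝒱.Obj} (ψ : A ⟶ B.prod T) [IsIso ψ] (c : A' ⟶ B'.prod T')
    [IsIso c] (f : A ⟶ A') (g : B.prod T ⟶ B'.prod T') (h : ψ ≫ g = f ≫ c) (a : C.CH A') :
    C.push ψ (C.pull f a) = C.pull g (C.push c a) := by
  conv_lhs => rw [← pull_push_iso (C := C) c a, ← C.pull_comp, ← h, C.pull_comp, C.push_pull_iso]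

end Base

variable {k₀ : Type u} [Field k₀] {𝒱₀ : VarClass k₀} {C₀ : ChowTheory.{u, v} 𝒱₀}
  {K : Type u'} [Field K] {𝒱 : VarClass K} {C : ChowTheory.{u', v'} 𝒱}
  {W₀ : WeilTheory.{u, v, w} C₀} {W : WeilTheory.{u', v', w'} C} {E : BaseExtension C₀ C}

@[reassoc (attr := simp)]
lemma BaseExtension.comparison_fst (E : BaseExtension C₀ C) (X Y : 𝒱₀.Obj) :
    E.comparison X Y ≫ fst _ _ = E.map (fst X Y) := lift_fst _ _
@[reassoc (attr := simp)]
lemma BaseExtension.comparison_snd (E : BaseExtension C₀ C) (X Y : 𝒱₀.Obj) :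
    E.comparison X Y ≫ snd _ _ = E.map (snd X Y) := lift_snd _ _

namespace IsExtension

variable (hE : IsExtension W₀ W E)
include hE

lemma ch_pull {X Y : 𝒱₀.Obj} (f : X ⟶ Y) (y : C₀.CH Y) :
    E.ch X (C₀.pull f y) = C.pull (E.map f) (E.ch Y y) := hE.pull f y

lemma ch_push {X Y : 𝒱₀.Obj} (f : X ⟶ Y) (x : C₀.CH X) :
    E.ch Y (C₀.push f x) = C.push (E.map f) (E.ch X x) := hE.push f x

lemma ch_mem {X : 𝒱₀.Obj} {i : ℕ} {x : C₀.CH X} (hx : x ∈ C₀.gr X i) :
    E.ch X x ∈ C.gr (E.obj X) i := ((hE.ch X).gr i x).2 hx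

omit hE in
lemma corr_eq (X Y : 𝒱₀.Obj) (γ : C₀.CH (X.prod Y)) :
    E.corr X Y γ = C.span (E.map (fst X Y)) (E.map (snd X Y)) (E.ch _ γ) := rfl

omit hE in
lemma corr_add (X Y : 𝒱₀.Obj) (γ δ : C₀.CH (X.prod Y)) :
    E.corr X Y (γ + δ) = E.corr X Y γ + E.corr X Y δ := by
  change C.push _ (E.ch _ (γ + δ)) = C.push _ (E.ch _ γ) + C.push _ (E.ch _ δ)
  rw [map_add, map_add]

omit hE in
lemma corr_sub (X Y : 𝒱₀.Obj) (γ δ : C₀.CH (X.prod Y)) :
    E.corr X Y (γ - δ) = E.corr X Y γ - E.corr X Y δ := by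
  change C.push _ (E.ch _ (γ - δ)) = C.push _ (E.ch _ γ) - C.push _ (E.ch _ δ)
  rw [map_sub, map_sub]

omit hE in
lemma corr_zero (X Y : 𝒱₀.Obj) : E.corr X Y (0 : C₀.CH (X.prod Y)) = 0 := by
  change C.push _ (E.ch _ 0) = 0
  rw [map_zero, map_zero]

omit hE in
lemma corr_sum (X Y : 𝒱₀.Obj) {ι : Type*} (s : Finset ι) (γ : ι → C₀.CH (X.prod Y)) :
    E.corr X Y (∑ i ∈ s, γ i) = ∑ i ∈ s, E.corr X Y (γ i) := by
  change C.push _ (E.ch _ (∑ i ∈ s, γ i)) = ∑ i ∈ s, C.push _ (E.ch _ (γ i))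
  rw [map_sum, map_sum]

lemma map_lift_comparison {P A B : 𝒱₀.Obj} (a : P ⟶ A) (b : P ⟶ B) :
    E.map (lift a b) ≫ E.comparison A B = lift (E.map a) (E.map b) := by
  apply hom_ext_prod
  · rw [Category.assoc, E.comparison_fst, ← hE.map_comp, lift_fst, lift_fst]
  · rw [Category.assoc, E.comparison_snd, ← hE.map_comp, lift_snd, lift_snd]

lemma corr_span {P A B : 𝒱₀.Obj} (a : P ⟶ A) (b : P ⟶ B) (ω : C₀.CH P) :
    E.corr A B (C₀.span a b ω) = C.span (E.map a) (E.map b) (E.ch P ω) := by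
  change C.push (E.comparison A B) (E.ch _ (C₀.push (lift a b) ω)) = _
  rw [hE.ch_push, ← C.push_comp, hE.map_lift_comparison]
  rfl

lemma corr_mem {X Y : 𝒱₀.Obj} {γ : C₀.CH (X.prod Y)} {c : ℕ} (hγ : γ ∈ C₀.gr (X.prod Y) c) :
    E.corr X Y γ ∈ C.gr ((E.obj X).prod (E.obj Y)) c := by
  refine C.span_mem _ _ (hE.ch_mem hγ) ?_
  rw [hE.dim, hE.dim, hE.dim, dim_prod]

lemma ch_act {X Y : 𝒱₀.Obj} (γ : C₀.CH (X.prod Y)) (x : C₀.CH X) :
    E.ch Y (C₀.act γ x) = C.act (E.corr X Y γ) (E.ch X x) := by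
  rw [corr_eq, C.act_span, C₀.act_apply, hE.ch_push, map_mul, hE.ch_pull]

lemma corr_diagC (X : 𝒱₀.Obj) : E.corr X X (C₀.diagC X) = C.diagC (E.obj X) := by
  rw [C₀.diagC_eq, hE.corr_span, map_one, hE.map_id, C.diagC_eq]

/-- the isomorphism `(X × (Y × Z)) ⊗ K → (X ⊗ K) × ((Y ⊗ K) × (Z ⊗ K))` -/
noncomputable def _root_.Pool.Agent.H837.Const.BaseExtension.comparison3 (E : BaseExtension C₀ C)
    (X Y Z : 𝒱₀.Obj) :
    E.obj (X.prod (Y.prod Z)) ⟶ (E.obj X).prod ((E.obj Y).prod (E.obj Z)) :=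
  lift (E.map (fst X (Y.prod Z))) (E.map (snd X (Y.prod Z)) ≫ E.comparison Y Z)

lemma isIso3 (X Y Z : 𝒱₀.Obj) : IsIso (E.comparison3 X Y Z) := by
  have h1 := hE.isIso X (Y.prod Z)
  have h2 := hE.isIso Y Z
  have h3 : IsIso (prodMap (𝟙 (E.obj X)) (E.comparison Y Z)) := by
    refine isIso_of (prodMap (𝟙 (E.obj X)) (inv (E.comparison Y Z))) ?_ ?_ <;>
    · apply hom_ext_prod <;> simp
  have : E.comparison3 X Y Z = E.comparison X (Y.prod Z) ≫ prodMap (𝟙 (E.obj X))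
      (E.comparison Y Z) := by
    apply hom_ext_prod <;> simp [BaseExtension.comparison3]
  rw [this]
  infer_instance

lemma comparison3_p12 (X Y Z : 𝒱₀.Obj) :
    E.comparison3 X Y Z ≫ p12 _ _ _ = E.map (p12 X Y Z) ≫ E.comparison X Y := by
  apply hom_ext_prod
  · rw [Category.assoc, Category.assoc, p12_fst, E.comparison_fst, ← hE.map_comp, p12_fst]
    simp [BaseExtension.comparison3]
  · rw [Category.assoc, Category.assoc, p12_snd, E.comparison_snd, ← hE.map_comp, p12_snd,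
      hE.map_comp]
    simp [BaseExtension.comparison3]

lemma comparison3_p13 (X Y Z : 𝒱₀.Obj) :
    E.comparison3 X Y Z ≫ p13 _ _ _ = E.map (p13 X Y Z) ≫ E.comparison X Z := by
  apply hom_ext_prod
  · rw [Category.assoc, Category.assoc, p13_fst, E.comparison_fst, ← hE.map_comp, p13_fst]
    simp [BaseExtension.comparison3]
  · rw [Category.assoc, Category.assoc, p13_snd, E.comparison_snd, ← hE.map_comp, p13_snd,
      hE.map_comp]
    simp [BaseExtension.comparison3]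

omit hE in
lemma comparison3_snd (X Y Z : 𝒱₀.Obj) :
    E.comparison3 X Y Z ≫ snd _ _ = E.map (snd X (Y.prod Z)) ≫ E.comparison Y Z := by
  simp [BaseExtension.comparison3]

lemma corr_comp {X Y Z : 𝒱₀.Obj} (α : C₀.CH (X.prod Y)) (β : C₀.CH (Y.prod Z)) :
    E.corr X Z (C₀.comp α β) = C.comp (E.corr X Y α) (E.corr Y Z β) := by
  have i3 := hE.isIso3 X Y Z
  have i12 := hE.isIso X Y
  have i23 := hE.isIso Y Z
  change C.push (E.comparison X Z) (E.ch _ (C₀.push (p13 X Y Z) _)) = C.push (p13 _ _ _)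
    (C.pull (p12 _ _ _) (C.push (E.comparison X Y) (E.ch _ α)) *
      C.pull (snd _ _) (C.push (E.comparison Y Z) (E.ch _ β)))
  rw [hE.ch_push, map_mul, hE.ch_pull, hE.ch_pull, ← C.push_comp, ← hE.comparison3_p13, C.push_comp,
    ← push_pull_of_iso (C := C) (E.comparison3 X Y Z) (E.comparison Y Z) (E.map (snd X (Y.prod Z)))
      (snd _ _) (comparison3_snd X Y Z), ← C.mul_push, ← C.pull_comp, hE.comparison3_p12,
    C.pull_comp, pull_push_iso]

/-- composition with a correspondence which is defined over `k₀`, on the right -/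
lemma act_opL {X Y : 𝒱₀.Obj} (w : C₀.CH (Y.prod Y)) (γ : C.CH ((E.obj X).prod (E.obj Y))) :
    C.act (E.corr (X.prod Y) (X.prod Y) (C₀.opL X w)) (C.pull (E.comparison X Y) γ) =
      C.pull (E.comparison X Y) (C.comp γ (E.corr Y Y w)) := by
  have i3 := hE.isIso3 X Y Y
  have i := hE.isIso X Y
  have i' := hE.isIso Y Y
  apply C.push_injective (E.comparison X Y)
  rw [C.push_pull_iso]
  rw [ChowTheory.opL, hE.corr_span, C.act_span, ← C.push_comp, ← hE.comparison3_p13, C.push_comp,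
    ← C.pull_comp, ← hE.comparison3_p12, C.pull_comp, C.push_mul, hE.ch_pull,
    push_pull_of_iso (C := C) (E.comparison3 X Y Y) (E.comparison Y Y) (E.map (snd X (Y.prod Y)))
      (snd _ _) (comparison3_snd X Y Y), mul_comm]
  rfl

/-- composition with a correspondence which is defined over `k₀`, on the left -/
lemma act_opR {X Y : 𝒱₀.Obj} (w : C₀.CH (X.prod X)) (γ : C.CH ((E.obj X).prod (E.obj Y))) :
    C.act (E.corr (X.prod Y) (X.prod Y) (C₀.opR w Y)) (C.pull (E.comparison X Y) γ) =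
      C.pull (E.comparison X Y) (C.comp (E.corr X X w) γ) := by
  have i3 := hE.isIso3 X X Y
  have i := hE.isIso X Y
  have i' := hE.isIso X X
  apply C.push_injective (E.comparison X Y)
  rw [C.push_pull_iso]
  rw [ChowTheory.opR, hE.corr_span, C.act_span, ← C.push_comp, ← hE.comparison3_p13, C.push_comp,
    ← C.pull_comp, ← comparison3_snd, C.pull_comp, C.push_mul, hE.ch_pull,
    push_pull_of_iso (C := C) (E.comparison3 X X Y) (E.comparison X X) (E.map (p12 X X Y))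
      (p12 _ _ _) (hE.comparison3_p12 X X Y)]
  rfl

end IsExtension

end Pool.Agent.H837.Const
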