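import Pool.Agent.H837.Const.Van

/-!
# The filtration on the Chow groups over `K` given by Chow–Künneth decompositions over `k₀`
-/

open CategoryTheory CategoryTheory.Limits AlgebraicGeometry
open Pool.Agent.H914 Pool.Agent.H914.VarClass Pool.Agent.H914.VarClass.Obj Pool.Agent.R903
open Pool.Agent.R903.WeilTheory Pool.Agent.T6.H15.BB

universe u v w u' v' w' t

namespace Pool.Agent.H837.Const

variable {k₀ : Type u} [Field k₀] {𝒱₀ : VarClass k₀} {C₀ : ChowTheory.{u, v} 𝒱₀}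
  {K : Type u'} [Field K] {𝒱 : VarClass K} {C : ChowTheory.{u', v'} 𝒱}
  {W₀ : WeilTheory.{u, v, w} C₀} {W : WeilTheory.{u', v', w'} C} {E : BaseExtension C₀ C}
  {F : Family C₀}

/-- what is known over the small field -/
structure Small (W₀ : WeilTheory.{u, v, w} C₀) (F : Family C₀) : Prop where
  weak : Weak W₀ F
  lef : ∀ X, LefschetzStd W₀ X

lemma Small.goodOn (h : Small W₀ F) : GoodOn W₀ (fun _ => True) := h.weak.goodOn h.lef

variable (hE : IsExtension W₀ W E) (hS : HasSpreads E) (hF : Small W₀ F)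
include hE hS hF

/-- the upper vanishing -/
lemma van_up {X : 𝒱₀.Obj} {π : ℕ → C₀.CH (X.prod X)} (h : W₀.IsCK X π) {i b : ℕ}
    (hb : 2 * i ≤ b) {x : C.CH (E.obj X)} (hx : HomTrivial W (E.obj X) i x) :
    C.act (E.corr X X (π b)) x = 0 := by
  have hπ := hE.isCK h
  refine van hE hS hF.weak (h.mem b) (w := b) (c := i) hb (fun n hn a ha => ?_)
    (C.act_mem (hπ.mem b) hx.1 rfl) ?_ ?_
  · rw [h.proj b n a ha, if_neg hn]
  · rw [W.cl_act, hx.cl, map_zero]
  · have := hπ.act_act b b x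
    rwa [if_pos rfl] at this

/-- the upper vanishing, without the condition on the class -/
lemma van_up' {X : 𝒱₀.Obj} {π : ℕ → C₀.CH (X.prod X)} (h : W₀.IsCK X π) {i b : ℕ}
    (hb : 2 * i < b) {x : C.CH (E.obj X)} (hx : x ∈ C.gr (E.obj X) i) :
    C.act (E.corr X X (π b)) x = 0 := by
  have hπ := hE.isCK h
  have h1 : HomTrivial W (E.obj X) i (C.act (E.corr X X (π b)) x) := by
    refine homTrivial_mk (C.act_mem (hπ.mem b) hx rfl) ?_
    rw [W.cl_act, hπ.proj b _ _ (W.cl_mem hx), if_neg (by omega)]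
  have h2 := van_up hE hS hF h hb.le h1
  have h3 := hπ.act_act b b x
  rw [if_pos rfl] at h3
  rwa [h3] at h2

omit hS in
/-- the lower vanishing -/
lemma van_low {X : 𝒱₀.Obj} {π : ℕ → C₀.CH (X.prod X)} (h : W₀.IsCK X π) {i b : ℕ}
    (hb : b < i) {x : C.CH (E.obj X)} (hx : x ∈ C.gr (E.obj X) i) :
    C.act (E.corr X X (π b)) x = 0 := by
  have hπ := hE.isCK h
  have hdX := hE.dim X
  by_cases hi : X.dim < i
  · rw [C.gr_eq_bot _ i (by omega), Submodule.mem_bot] at hx
    rw [hx, map_zero]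
  obtain ⟨μ, lam, hμ, hlam, hid⟩ := hF.lef X b (by omega)
  have hμ' : μ ∈ C₀.gr (X.prod X) (2 * X.dim - b) := hμ
  have hlam' : lam ∈ C₀.gr (X.prod X) b := hlam
  have hmem : C₀.comp μ lam - C₀.diagC X ∈ C₀.gr (X.prod X) X.dim :=
    Submodule.sub_mem _ (C₀.comp_mem hμ' hlam' (by omega)) (C₀.diagC_mem X)
  have hkill : Kills W₀ (C₀.comp μ lam - C₀.diagC X) b := by
    intro a ha
    rw [W₀.act_sub, LinearMap.sub_apply, W₀.act_comp _ hlam', W₀.act_diagC, sub_eq_zero]
    exact hid a ha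
  have h1 := hF.goodOn.block (fun _ _ _ _ => trivial) trivial trivial h h (a := b) (b := b)
    (by omega) hmem (Or.inr ⟨rfl, hkill⟩)
  have h2 : C.act (E.corr X X
      (C₀.comp (C₀.comp (π b) (C₀.comp μ lam - C₀.diagC X)) (π b))) x = 0 := by
    rw [h1, IsExtension.corr_zero, C.act_zero, LinearMap.zero_apply]
  have h3 : C.act (E.corr X X μ) (C.act (E.corr X X (π b)) x) = 0 := by
    have h4 : C.act (E.corr X X μ) (C.act (E.corr X X (π b)) x) ∈
        C.gr (E.obj X) (i + X.dim - b) :=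
      C.act_mem (hE.corr_mem hμ') (C.act_mem (hπ.mem b) hx rfl) (by omega)
    rwa [C.gr_eq_bot _ _ (by omega), Submodule.mem_bot] at h4
  rw [hE.corr_comp, C.act_comp, hE.corr_comp, C.act_comp, IsExtension.corr_sub, C.act_sub,
    LinearMap.sub_apply, hE.corr_diagC, C.act_diagC, hE.corr_comp, C.act_comp, h3,
    map_zero, zero_sub, map_neg, neg_eq_zero] at h2
  have h5 := hπ.act_act b b x
  rw [if_pos rfl] at h5
  rwa [h5] at h2

/-- Correspondences over `K` of any degree respect the filtrations, and lower them if they act as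
zero on the relevant cohomology group. -/
lemma act_mem {X Y : 𝒱₀.Obj} {π : ℕ → C₀.CH (X.prod X)} {ρ : ℕ → C₀.CH (Y.prod Y)}
    (h : W₀.IsCK X π) (h' : W₀.IsCK Y ρ) {i j c m : ℕ} {γ : C.CH ((E.obj X).prod (E.obj Y))}
    (hγ : γ ∈ C.gr _ c) (hc : i + c = j + (E.obj X).dim) {x : C.CH (E.obj X)}
    (hx : x ∈ C.ckFil (fun j => E.corr X X (π j)) i m) :
    C.act γ x ∈ C.ckFil (fun j => E.corr Y Y (ρ j)) j m ∧
      ((∀ l, l + m = 2 * i → Kill W γ l) →
        C.act γ x ∈ C.ckFil (fun j => E.corr Y Y (ρ j)) j (m + 1)) := by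
  have hπ := hE.isCK h
  have hρ := hE.isCK h'
  have hdX := hE.dim X
  rw [mem_ckFil hπ] at hx
  have key : ∀ b, C.act (E.corr Y Y (ρ b)) (C.act γ x) =
      ∑ a ∈ Finset.range (2 * (E.obj X).dim + 1),
        C.act (C.comp (C.comp (E.corr X X (π a)) γ) (E.corr Y Y (ρ b))) x := by
    intro b
    conv_lhs => rw [← hπ.sum_act x]
    rw [map_sum, map_sum]
    refine Finset.sum_congr rfl fun a _ => ?_
    rw [C.act_comp, C.act_comp]
  constructor
  · rw [mem_ckFil hρ]
    refine ⟨C.act_mem hγ hx.1 hc, fun b hb => ?_⟩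
    rw [key]
    refine Finset.sum_eq_zero fun a ha => ?_
    rw [Finset.mem_range] at ha
    by_cases ham : 2 * i < a + m
    · rw [C.act_comp, C.act_comp, hx.2 a ham, map_zero, map_zero]
    · rw [block hE hS hF.weak h h' (by omega) hγ (Or.inl (by omega)), C.act_zero,
        LinearMap.zero_apply]
  · intro h0
    rw [mem_ckFil hρ]
    refine ⟨C.act_mem hγ hx.1 hc, fun b hb => ?_⟩
    rw [key]
    refine Finset.sum_eq_zero fun a ha => ?_
    rw [Finset.mem_range] at ha
    by_cases ham : 2 * i < a + m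
    · rw [C.act_comp, C.act_comp, hx.2 a ham, map_zero, map_zero]
    · by_cases hab : 2 * c + a < 2 * X.dim + b
      · rw [block hE hS hF.weak h h' (by omega) hγ (Or.inl hab), C.act_zero,
          LinearMap.zero_apply]
      · rw [block hE hS hF.weak h h' (by omega) hγ (Or.inr ⟨by omega, h0 a (by omega)⟩),
          C.act_zero, LinearMap.zero_apply]

lemma ckFil_zero {X : 𝒱₀.Obj} {π : ℕ → C₀.CH (X.prod X)} (h : W₀.IsCK X π) (i : ℕ) :
    C.ckFil (fun j => E.corr X X (π j)) i 0 = C.gr (E.obj X) i := by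
  rw [ckFil_zero_eq_iff (hE.isCK h)]
  intro b hb x hx
  exact van_up' hE hS hF h hb hx

lemma ckFil_one {X : 𝒱₀.Obj} {π : ℕ → C₀.CH (X.prod X)} (h : W₀.IsCK X π) (i : ℕ)
    (x : C.CH (E.obj X)) :
    x ∈ C.ckFil (fun j => E.corr X X (π j)) i 1 ↔ HomTrivial W (E.obj X) i x := by
  have hπ := hE.isCK h
  rw [mem_ckFil hπ]
  constructor
  · rintro ⟨hx, h0⟩
    refine homTrivial_mk hx ?_
    have h1 := hπ.proj (2 * i) _ _ (W.cl_mem hx)
    rw [if_pos rfl] at h1
    rw [← h1, ← W.cl_act, h0 (2 * i) (by omega), map_zero]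
  · intro hx
    exact ⟨hx.1, fun b hb => van_up hE hS hF h (by omega) hx⟩

omit hS in
lemma ckFil_top {X : 𝒱₀.Obj} {π : ℕ → C₀.CH (X.prod X)} (h : W₀.IsCK X π) (i : ℕ)
    {x : C.CH (E.obj X)} (hx : x ∈ C.ckFil (fun j => E.corr X X (π j)) i (i + 1)) : x = 0 := by
  have hπ := hE.isCK h
  rw [mem_ckFil hπ] at hx
  rw [← hπ.sum_act x]
  refine Finset.sum_eq_zero fun b _ => ?_
  by_cases hb : b < i
  · exact van_low hE hF h hb hx.1
  · exact hx.2 b (by omega)

/-- The Bloch–Beilinson filtration for the varieties `X ⊗ K`. -/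
theorem exists_isBBAJ {N : Kernels C} (hN : IsAJKernel W N)
    (h0 : ∀ (X : 𝒱₀.Obj) (π : ℕ → C₀.CH (X.prod X)), W₀.IsCK X π → ∀ j m, m + 1 = 2 * j →
      ∀ x ∈ N (E.obj X) j, C.act (E.corr X X (π m)) x = x → x = 0) :
    ∃ F, IsBBAJ W N E.obj F := by
  choose π hπ using fun X => hF.goodOn.ck X trivial
  refine ⟨fun X i n => C.ckFil (fun j => E.corr X X (π X j)) i n, ?_, ?_, ?_, ?_, ?_, ?_, ?_⟩
  · intro X j ν x hx
    exact ckFil_anti (hE.isCK (hπ X)) (Nat.le_succ ν) hx
  · intro X j x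
    rw [MemSub, ckFil_zero hE hS hF (hπ X)]
    rfl
  · intro X j x
    exact ckFil_one hE hS hF (hπ X) j x
  · intro X j x
    have hπ' := hE.isCK (hπ X)
    constructor
    · intro hx
      have hx1 := (ckFil_one hE hS hF (hπ X) j x).1 (ckFil_anti hπ' (by omega) hx)
      rcases Nat.eq_zero_or_pos j with rfl | hj
      · have h2 : x = 0 := ckFil_top hE hF (hπ X) 0 (ckFil_anti hπ' (by omega) hx)
        rw [h2]
        exact Submodule.zero_mem _
      have hx2 := (mem_ckFil hπ').1 hx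
      rw [← hπ'.sum_act x]
      refine Submodule.sum_mem _ fun b _ => ?_
      by_cases hb : 2 * j < b + 2
      · rw [hx2.2 b hb]
        exact Submodule.zero_mem _
      · refine hN.kills _ _ (E.corr X X (π X b)) j j (2 * j - 1) x ⟨_, rfl, hπ'.mem b⟩
          (by omega) ?_ hx1
        intro a ha
        rw [hπ'.proj b _ a ha, if_neg (by omega)]
    · intro hx
      have hx1 := hN.hom _ j x hx
      rw [MemSub, mem_ckFil hπ']
      refine ⟨hx1.1, fun b hb => ?_⟩
      by_cases hb' : 2 * j ≤ b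
      · exact van_up hE hS hF (hπ X) hb' hx1
      · refine h0 X (π X) (hπ X) j b (by omega) _
          (hN.corr _ _ (E.corr X X (π X b)) j j x ⟨_, rfl, hπ'.mem b⟩ hx) ?_
        have := hπ'.act_act b b x
        rwa [if_pos rfl] at this
  · intro X j x hx
    exact ckFil_top hE hF (hπ X) j hx
  · rintro X Y γ j i ν x ⟨l, h, hγ⟩ hx
    exact (act_mem hE hS hF (hπ X) (hπ Y) hγ h hx).1
  · rintro X Y γ j i m ν x ⟨l, h, hγ⟩ hm hk hx
    refine (act_mem hE hS hF (hπ X) (hπ Y) hγ h hx).2 fun a ha => ?_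
    have : a = m := by omega
    rwa [this]

end Pool.Agent.H837.Const
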