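import Pool.Agent.H837.Const.Jac

/-!
# Bloch–Beilinson filtrations over `K` for the varieties which are defined over `k₀`
-/

open CategoryTheory CategoryTheory.Limits AlgebraicGeometry
open Pool.Agent.H914 Pool.Agent.H914.VarClass Pool.Agent.H914.VarClass.Obj Pool.Agent.R903
open Pool.Agent.R903.WeilTheory Pool.Agent.T6.H15.BB

universe u v w u' v' w' t

namespace Pool.Agent.H837.Const

section Base

variable {k : Type u} [Field k] {𝒱 : VarClass k} {C : ChowTheory.{u, v} 𝒱}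
  {W : WeilTheory.{u, v, w} C}

lemma pow_mem_gr {X : 𝒱.Obj} {D : C.CH X} (hD : D ∈ C.gr X 1) (n : ℕ) : D ^ n ∈ C.gr X n := by
  induction n with
  | zero => rw [pow_zero]; exact C.one_mem X
  | succ n ih => rw [pow_succ]; exact C.mul_mem ih hD

lemma HardLefschetz.point {X : 𝒱.Obj} (h : HardLefschetz W X) :
    ∃ t ∈ C.gr X X.dim, C.deg X t = 1 := by
  obtain ⟨D, hD, h0, _⟩ := h
  refine ⟨(C.deg X (D ^ X.dim))⁻¹ • D ^ X.dim, Submodule.smul_mem _ _ (pow_mem_gr hD _), ?_⟩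
  rw [map_smul, smul_eq_mul, inv_mul_cancel₀ h0]

lemma HardLefschetz.lef (hD : Jan.HomEqNum W) {X : 𝒱.Obj} (h : HardLefschetz W X) :
    LefschetzStd W X := by
  obtain ⟨D, hD1, _, hl⟩ := h
  refine Jan.lefschetzStd hD hD1 fun b hb a ha h0 => hl b hb a ha ?_
  rw [map_pow] at h0
  exact h0

/-- the homologically trivial classes -/
def homSub (W : WeilTheory.{u, v, w} C) (X : 𝒱.Obj) (j : ℕ) : Submodule ℚ (C.CH X) where
  carrier := {x | x ∈ C.gr X j ∧ W.cl X x = 0}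
  add_mem' := by
    rintro a b ⟨ha, ha'⟩ ⟨hb, hb'⟩
    exact ⟨Submodule.add_mem _ ha hb, by rw [map_add, ha', hb', add_zero]⟩
  zero_mem' := ⟨Submodule.zero_mem _, map_zero _⟩
  smul_mem' := by
    rintro q a ⟨ha, ha'⟩
    exact ⟨Submodule.smul_mem _ _ ha, by rw [W.cl_smul, ha', smul_zero]⟩

/-- the filtration with `F^2 = 0` -/
def twoStep (W : WeilTheory.{u, v, w} C) : Family C
  | X, j, 0 => C.gr X j
  | X, j, 1 => homSub W X j
  | _, _, _ + 2 => ⊥

lemma gr_zero_eq {X : 𝒱.Obj} {x : C.CH X} (hx : x ∈ C.gr X 0) : ∃ q : ℚ, x = q • (1 : C.CH X) := by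
  classical
  obtain ⟨z, hz, rfl⟩ := C.mem_gr.1 hx
  set q := X.V.coeff z (genericPoint X.V.X) with hq
  refine ⟨q, ?_⟩
  have hc : ∀ p, X.V.coeff (q • X.V.fundCycle) p = q * X.V.coeff X.V.fundCycle p :=
    fun p => Finsupp.smul_apply (M := ℚ) (α := X.V.X) q X.V.fundCycle p
  have h1 : z = q • X.V.fundCycle := by
    refine Finsupp.ext (M := ℚ) (α := X.V.X) fun p => ?_
    change X.V.coeff z p = X.V.coeff (q • X.V.fundCycle) p
    rw [hc]
    by_cases hp : p = genericPoint X.V.X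
    · subst hp
      have h2 : X.V.coeff X.V.fundCycle (genericPoint X.V.X) = 1 :=
        Finsupp.single_eq_same (M := ℚ) (α := X.V.X)
      rw [h2, mul_one]
    · have h2 : X.V.coeff X.V.fundCycle p = 0 :=
        Finsupp.single_eq_of_ne (M := ℚ) (α := X.V.X) hp
      rw [h2, mul_zero]
      by_contra hne
      have h3 : Order.coheight p = 0 := by
        have := hz p hne
        rwa [Nat.cast_zero] at this
      rw [Order.coheight_eq_zero] at h3
      have h4 : genericPoint X.V.X ⤳ p := genericPoint_specializes p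
      have h5 : p ⤳ genericPoint X.V.X := h3 h4
      exact hp (h5.antisymm h4).eq
  conv_lhs => rw [h1]
  rw [map_smul, C.cls_fund]

end Base

section Extension

variable {k₀ : Type u} [Field k₀] {𝒱₀ : VarClass k₀} {C₀ : ChowTheory.{u, v} 𝒱₀}
  {K : Type u'} [Field K] {𝒱 : VarClass K} {C : ChowTheory.{u', v'} 𝒱}
  {W₀ : WeilTheory.{u, v, w} C₀} {W : WeilTheory.{u', v', w'} C} {E : BaseExtension C₀ C}
  {N : Kernels C}

/-- every class over `K` has the same cohomology class as a class over `k₀` -/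
lemma exists_model (hE : IsExtension W₀ W E) (hS : HasSpreads E)
    (hpt : ∀ T : 𝒱₀.Obj, ∃ t₀ ∈ C₀.gr T T.dim, C₀.deg T t₀ = 1) {X : 𝒱₀.Obj} {i : ℕ}
    {x : C.CH (E.obj X)} (hx : x ∈ C.gr _ i) :
    ∃ x₀ ∈ C₀.gr X i, W.cl _ (E.ch X x₀) = W.cl _ x := by
  obtain ⟨T, τ, hτ, y, hy, hyx⟩ := hS X i x hx
  obtain ⟨t₀, ht, ht1⟩ := hpt T
  have hdT := hE.dim T
  have hch1 : C.deg _ (E.ch T t₀) = 1 := by rw [(hE.ch T).deg, ht1]
  have hchm : E.ch T t₀ ∈ C.gr (E.obj T) (E.obj T).dim := by rw [hdT]; exact hE.ch_mem ht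
  have hτm : τ ∈ C.gr (E.obj T) (E.obj T).dim := hτ.mem
  have h1 : W.cl _ τ = W.cl _ (E.ch T t₀) := by
    have h := top_eq hchm hch1 (W.cl_mem hτm)
    have hdeg : C.deg _ τ = 1 := hτ.deg
    rwa [W.tr_cl, hdeg, Rat.cast_one, one_smul] at h
  have hyx' : C.act (E.corr T X y) τ = x := hyx
  refine ⟨C₀.act y t₀, C₀.act_mem hy ht (add_comm _ _), ?_⟩
  rw [hE.ch_act, W.cl_act, ← h1, ← W.cl_act, hyx']

lemma cast_deg (hE : IsExtension W₀ W E) {X : 𝒱₀.Obj} {x z : C.CH (E.obj X)} {x₀ z₀ : C₀.CH X}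
    (hx : W.cl _ (E.ch X x₀) = W.cl _ x) (hz : W.cl _ (E.ch X z₀) = W.cl _ z) :
    C.deg _ (x * z) = C₀.deg X (x₀ * z₀) := by
  have h1 : (C.deg _ (x * z) : W.K) = (C.deg _ (E.ch X (x₀ * z₀)) : W.K) := by
    rw [← W.tr_cl, ← W.tr_cl, W.cl_mul, map_mul (E.ch X), W.cl_mul, hx, hz]
  have h2 := Rat.cast_injective h1
  rw [h2, (hE.ch X).deg]

theorem homEqNum_iff (hE : IsExtension W₀ W E) (hS : HasSpreads E)
    (hpt : ∀ T : 𝒱₀.Obj, ∃ t₀ ∈ C₀.gr T T.dim, C₀.deg T t₀ = 1) (X : 𝒱₀.Obj) :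
    HomEqNum W (E.obj X) ↔ HomEqNum W₀ X := by
  constructor
  · intro h i x hx h0
    refine ((hE.ch X).cl x).1 (h i (E.ch X x) (hE.ch_mem hx) fun z => ?_)
    refine gr_induction (C.isInternal (E.obj X)) (p := fun z => C.deg _ (E.ch X x * z) = 0) ?_ ?_ z
    · intro j z hz
      obtain ⟨z₀, hz₀, hcl⟩ := exists_model hE hS hpt hz
      rw [cast_deg hE rfl hcl]
      exact h0 z₀
    · intro a b ha hb
      rw [mul_add, map_add, ha, hb, add_zero]
  · intro h i x hx h0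
    obtain ⟨x₀, hx₀, hcl⟩ := exists_model hE hS hpt hx
    have h1 : W₀.cl X x₀ = 0 := by
      refine h i x₀ hx₀ fun z => ?_
      rw [← cast_deg hE hcl rfl]
      exact h0 _
    have h2 : W.cl _ (E.ch X x₀) = 0 := ((hE.ch X).cl x₀).2 h1
    change W.cl _ x = 0
    rw [← hcl, h2]

theorem descent (hE : IsExtension W₀ W E) {F : FamilyOn C E.obj} (hF : IsBBAJ W N E.obj F) :
    IsBBAJ W₀ (E.restrict N) id (fun X j k => (F X j k).comap (E.ch X).toLinearMap) where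
  anti X j k x hx := hF.anti X j k (E.ch X x) hx
  zero X j x := (hF.zero X j (E.ch X x)).trans ((hE.ch X).gr j x)
  one X j x := (hF.one X j (E.ch X x)).trans (and_congr ((hE.ch X).gr j x) ((hE.ch X).cl x))
  two X j x := hF.two X j (E.ch X x)
  top X j x hx := (hE.ch X).injective x (hF.top X j (E.ch X x) hx)
  corr := by
    rintro X Y γ j i ν x ⟨l, h, hγ⟩ hx
    change E.ch Y (C₀.act γ x) ∈ F Y i ν
    rw [hE.ch_act]
    refine hF.corr X Y _ j i ν _ ⟨l, ?_, hE.corr_mem hγ⟩ hx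
    rw [hE.dim]
    exact h
  motivic := by
    rintro X Y γ j i m ν x ⟨l, h, hγ⟩ hm hk hx
    change E.ch Y (C₀.act γ x) ∈ F Y i (ν + 1)
    rw [hE.ch_act]
    refine hF.motivic X Y _ j i m ν _ ⟨l, ?_, hE.corr_mem hγ⟩ hm ((hE.kill X Y γ m).2 hk) hx
    rw [hE.dim]
    exact h

theorem ascent (hE : IsExtension W₀ W E) (hS : HasSpreads E) (hN : IsAJKernel W N)
    (hL : ∀ X, HardLefschetz W₀ X) (hD : ∀ X, HomEqNum W₀ X) {F : Family C₀}
    (hF : IsBBAJ W₀ (E.restrict N) id F) : ∃ F, IsBBAJ W N E.obj F := by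
  have hD' : Jan.HomEqNum W₀ := hD
  have hL' : ∀ X, LefschetzStd W₀ X := fun X => (hL X).lef hD'
  exact exists_isBBAJ hE hS ⟨hF.weak, hL'⟩ hN fun X π hπ j m hm x hx hfix =>
    aj hE hS hN hD' hL' (fun T => (hL T).point) hF hπ hm hx hfix

/-- if the Abel–Jacobi maps over `k₀` are injective, there is a filtration with `F^2 = 0` -/
theorem twoStep_isBBAJ (hE : IsExtension W₀ W E) (hN : IsAJKernel W N)
    (hL : ∀ X, HardLefschetz W₀ X) (h0 : ∀ X j x, x ∈ E.restrict N X j → x = 0) :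
    IsBBAJ W₀ (E.restrict N) id (twoStep W₀) where
  anti X j ν x hx := by
    match ν with
    | 0 => exact hx.1
    | 1 =>
      have : x = 0 := hx
      rw [this]
      exact Submodule.zero_mem _
    | _ + 2 => exact hx
  zero X j x := Iff.rfl
  one X j x := Iff.rfl
  two X j x := by
    constructor
    · intro hx
      have : x = 0 := hx
      rw [this]
      exact Submodule.zero_mem _
    · intro hx
      exact h0 X j x hx
  top X j x hx := by
    match j with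
    | 0 =>
      obtain ⟨h1, h2⟩ := hx
      obtain ⟨q, rfl⟩ := gr_zero_eq h1
      obtain ⟨t, ht, ht1⟩ := (hL X).point
      have h3 : W₀.tr X (W₀.cl X ((q • (1 : C₀.CH X)) * t)) = 0 := by
        rw [W₀.cl_mul, h2, zero_mul, map_zero]
      rw [smul_mul_assoc, one_mul, W₀.tr_cl, map_smul, ht1] at h3
      have h4 : q = 0 := by
        have := Rat.cast_eq_zero.1 h3
        simpa using this
      rw [h4, zero_smul]
    | _ + 1 => exact hx
  corr := by
    rintro X Y γ j i ν x ⟨l, h, hγ⟩ hx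
    match ν with
    | 0 => exact C₀.act_mem hγ hx h
    | 1 =>
      refine ⟨C₀.act_mem hγ hx.1 h, ?_⟩
      have h1 : W₀.cl (id X) x = 0 := hx.2
      change W₀.cl Y (C₀.act γ x) = 0
      rw [W₀.cl_act, h1, map_zero]
    | _ + 2 =>
      have h1 : x = 0 := hx
      rw [h1]
      change C₀.act γ 0 ∈ _
      rw [map_zero]
      exact Submodule.zero_mem _
  motivic := by
    rintro X Y γ j i m ν x ⟨l, h, hγ⟩ hm hk hx
    match ν with
    | 0 =>
      have hx' : x ∈ C₀.gr X j := hx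
      refine ⟨C₀.act_mem hγ hx' h, ?_⟩
      change W₀.cl Y (C₀.act γ x) = 0
      rw [W₀.cl_act]
      refine hk _ ?_
      have := W₀.cl_mem hx'
      rwa [show m = 2 * j by omega]
    | 1 =>
      have h1 : C₀.act γ x ∈ E.restrict N Y i := by
        change E.ch Y (C₀.act γ x) ∈ N (E.obj Y) i
        rw [hE.ch_act]
        refine hN.kills _ _ _ j i m _ ⟨l, ?_, hE.corr_mem hγ⟩ hm ((hE.kill X Y γ m).2 hk)
          ⟨hE.ch_mem hx.1, ((hE.ch X).cl x).2 hx.2⟩
        rw [hE.dim]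
        exact h
      exact h0 Y i _ h1
    | _ + 2 =>
      have h1 : x = 0 := hx
      rw [h1]
      change C₀.act γ 0 = 0
      rw [map_zero]

/-- The main result. -/
theorem main (hE : IsExtension W₀ W E) (hS : HasSpreads E) (hN : IsAJKernel W N)
    (hL : ∀ X, HardLefschetz W₀ X) :
    (((∀ X, HomEqNum W (E.obj X)) ∧ ∃ F, IsBBAJ W N E.obj F) ↔
      (∀ X, HomEqNum W₀ X) ∧ ∃ F₀, IsBBAJ W₀ (E.restrict N) id F₀) ∧
    ((∀ X, HomEqNum W₀ X) → (∀ X j x, MemSub (E.restrict N X j) x → x = 0) →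
      ∃ F, IsBBAJ W N E.obj F) := by
  have hpt : ∀ T : 𝒱₀.Obj, ∃ t₀ ∈ C₀.gr T T.dim, C₀.deg T t₀ = 1 := fun T => (hL T).point
  refine ⟨⟨fun ⟨hD, F, hF⟩ => ⟨fun X => (homEqNum_iff hE hS hpt X).1 (hD X), _, descent hE hF⟩,
    fun ⟨hD, F, hF⟩ => ⟨fun X => (homEqNum_iff hE hS hpt X).2 (hD X),
      ascent hE hS hN hL hD hF⟩⟩, fun hD h0 => ?_⟩
  exact ascent hE hS hN hL hD (twoStep_isBBAJ hE hN hL h0)

end Extension

end Pool.Agent.H837.Const
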