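import Pool.Agent.H837.Const.Fil

/-!
# The kernels of the Abel–Jacobi maps
-/

open CategoryTheory CategoryTheory.Limits AlgebraicGeometry
open Pool.Agent.H914 Pool.Agent.H914.VarClass Pool.Agent.H914.VarClass.Obj Pool.Agent.R903
open Pool.Agent.R903.WeilTheory Pool.Agent.T6.H15.BB

universe u v w u' v' w' t

namespace Pool.Agent.H837.Const

section Base

variable {k : Type u} [Field k] {𝒱 : VarClass k} {C : ChowTheory.{u, v} 𝒱}
  {W : WeilTheory.{u, v, w} C}

/-- the transpose of a correspondence which acts as zero on `H^l` acts as zero on the dual group -/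
lemma kill_transp {X : 𝒱.Obj} {γ : C.CH (X.prod X)} (hγ : γ ∈ C.gr (X.prod X) X.dim) {l n : ℕ}
    (hln : l + n = 2 * X.dim) (h : Kill W γ l) : Kill W (C.transp γ) n := by
  intro b hb
  rw [W.act_transp]
  apply W.nondeg
  intro a
  refine gr_induction (W.isInternal X) (p := fun a => W.tr X (W.coact γ b * a) = 0) ?_ ?_ a
  · intro p a ha
    rw [coact, W.tr_push, mul_assoc, W.comm (W.map_mem _ hb) (W.map_mem _ ha), mul_smul_comm,
      ← mul_assoc, map_smul, ← W.tr_push, ← W.act_apply]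
    by_cases hp : p = l
    · subst hp
      rw [h a ha, zero_mul, map_zero, smul_zero]
    · rw [W.tr_eq_zero (W.mul_mem (act_mem_H hγ ha (m := p) (by omega)) hb) (by omega), smul_zero]
  · intro a a' h h'
    rw [mul_add, map_add, h, h', add_zero]

/-- an injective algebraic map from `H^(2d-1)` to `H^1` -/
lemma exists_lower {T : 𝒱.Obj} (hL : LefschetzStd W T) {n : ℕ} (hn : n + 1 = 2 * T.dim) :
    ∃ κ ∈ C.gr (T.prod T) 1, ∀ a ∈ W.gr T n, W.act κ a = 0 → a = 0 := by
  by_cases hT : 1 < T.dim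
  · obtain ⟨μ, lam, hμ, hlam, hid⟩ := hL 1 hT
    have hμ' : μ ∈ C.gr (T.prod T) (2 * T.dim - 1) := hμ
    have hlam' : lam ∈ C.gr (T.prod T) 1 := hlam
    have hmem : C.comp μ lam - C.diagC T ∈ C.gr (T.prod T) T.dim :=
      Submodule.sub_mem _ (C.comp_mem hμ' hlam' (by omega)) (C.diagC_mem T)
    refine ⟨C.transp lam, C.transp_mem hlam', fun a ha h0 => ?_⟩
    have h1 : Kill W (C.comp μ lam - C.diagC T) 1 := by
      rw [kill_sub]
      intro a ha
      rw [W.act_comp _ hlam', W.act_diagC]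
      exact hid a ha
    have h2 := kill_transp hmem (n := n) (by omega) h1 a ha
    have h3 : C.transp (C.comp μ lam - C.diagC T) =
        C.comp (C.transp lam) (C.transp μ) - C.diagC T := by
      rw [C.comp_transp]
      conv_rhs => rw [← C.transp_diagC T]
      rw [ChowTheory.transp, ChowTheory.transp, ChowTheory.transp, map_sub]
    rw [h3, W.act_sub, LinearMap.sub_apply, W.act_comp _ (C.transp_mem hμ'), h0, map_zero,
      W.act_diagC, zero_sub, neg_eq_zero] at h2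
    exact h2
  · have hT1 : T.dim = 1 := by omega
    refine ⟨C.diagC T, ?_, fun a _ h0 => ?_⟩
    · have := C.diagC_mem T
      rwa [hT1] at this
    · rwa [W.act_diagC] at h0

lemma kill_vertical {T X : 𝒱.Obj} {z : C.CH (T.prod X)} (hz : z ∈ vertical C T X) {n : ℕ}
    (hn : 2 * T.dim ≤ n + 1) : Kill W z n := by
  have hle : vertical C T X ≤
      { carrier := {z | Kill W z n}
        add_mem' := by
          intro a b ha hb v hv
          rw [W.act_add, LinearMap.add_apply, ha v hv, hb v hv, add_zero]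
        zero_mem' := by
          intro v _
          rw [W.act_zero, LinearMap.zero_apply]
        smul_mem' := by
          intro q a ha v hv
          rw [W.act_smul, LinearMap.smul_apply, ha v hv, smul_zero] } := by
    refine Submodule.span_le.2 ?_
    rintro z ⟨D, f, w, hD, rfl⟩
    change Kill W (C.span (fst D X ≫ f) (snd D X) w) n
    intro v hv
    have h1 : W.map f v = 0 := by
      have := W.map_mem f hv
      rwa [W.gr_eq_bot D n (by omega), Submodule.mem_bot] at this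
    rw [W.act_span, W.map_comp, h1, map_zero, mul_zero, map_zero]
  exact hle hz

/-- the evaluation of correspondences at a zero-cycle, as a correspondence -/
noncomputable def evalC (C : ChowTheory.{u, v} 𝒱) (T X : 𝒱.Obj) (τ : C.CH T) :
    C.CH ((T.prod X).prod X) := C.span (𝟙 _) (snd T X) (C.pull (fst T X) τ)

lemma evalC_mem {T : 𝒱.Obj} (X : 𝒱.Obj) {τ : C.CH T} (hτ : τ ∈ C.gr T T.dim) :
    evalC C T X τ ∈ C.gr _ (T.prod X).dim :=
  C.span_mem _ _ (C.pull_mem _ hτ) (by simp only [dim_prod]; omega)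

lemma act_evalC (T X : 𝒱.Obj) (τ : C.CH T) (z : C.CH (T.prod X)) :
    C.act (evalC C T X τ) z = C.act z τ := by
  rw [evalC, C.act_span, C.pull_id, C.act_apply, mul_comm]

lemma actH_evalC (T X : 𝒱.Obj) (τ : C.CH T) (a : W.H T) (b : W.H X) :
    W.act (evalC C T X τ) (W.map (fst T X) a * W.map (snd T X) b) =
      W.tr T (W.cl T τ * a) • b := by
  rw [evalC, W.act_span, W.map_id, W.cl_pull, ← mul_assoc, ← W.map_mul', W.push_snd]

/-- the identity minus the projection to the classes which are constant along `T` -/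
noncomputable def varC (C : ChowTheory.{u, v} 𝒱) (T X : 𝒱.Obj) (τ : C.CH T) :
    C.CH ((T.prod X).prod (T.prod X)) :=
  C.diagC _ - C.comp (evalC C T X τ) (C.cograph (snd T X))

lemma varC_mem {T : 𝒱.Obj} (X : 𝒱.Obj) {τ : C.CH T} (hτ : τ ∈ C.gr T T.dim) :
    varC C T X τ ∈ C.gr _ (T.prod X).dim :=
  Submodule.sub_mem _ (C.diagC_mem _) (C.comp_mem (evalC_mem X hτ) (C.cograph_mem _) rfl)

lemma act_varC (T X : 𝒱.Obj) (τ : C.CH T) (z : C.CH (T.prod X)) :
    C.act (varC C T X τ) z = z - C.pull (snd T X) (C.act z τ) := by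
  rw [varC, C.act_sub, LinearMap.sub_apply, C.act_diagC, C.act_comp, act_evalC, C.act_cograph]

lemma actH_varC (T X : 𝒱.Obj) (τ : C.CH T) (a : W.H T) (b : W.H X) :
    W.act (varC C T X τ) (W.map (fst T X) a * W.map (snd T X) b) =
      W.map (fst T X) a * W.map (snd T X) b - W.tr T (W.cl T τ * a) • W.map (snd T X) b := by
  rw [varC, W.act_sub, LinearMap.sub_apply, W.act_diagC, W.act_comp _ (C.cograph_mem _),
    actH_evalC, ChowTheory.cograph, W.act_span, map_one, one_mul, W.push_id, map_smul]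

/-- the product of the two operators annihilates the cohomology in degree `m` -/
lemma kill_var_opL {T X : 𝒱.Obj} {τ : C.CH T} (h1 : C.deg T τ = 1) (hτ : τ ∈ C.gr T T.dim)
    {θ : C.CH (X.prod X)} (hθ : θ ∈ C.gr (X.prod X) X.dim) {m : ℕ} (h : ∀ q < m, Kill W θ q) :
    Kill W (C.comp (varC C T X τ) (C.opL T θ)) m := by
  refine eq_zero_of_prod _ fun p q hpq a ha b hb => ?_
  rw [W.act_comp _ (C.opL_mem hθ), actH_varC]
  rcases Nat.eq_zero_or_pos p with rfl | hp
  · obtain ⟨c, rfl⟩ := mem_gr_zero ha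
    rw [mul_smul_comm, mul_one, map_smul (W.tr T), W.tr_cl, h1, map_smul (W.map (fst T X)),
      map_one, Rat.cast_one, smul_mul_assoc, one_mul, smul_eq_mul, mul_one, sub_self, map_zero]
  · have h2 : W.tr T (W.cl T τ * a) = 0 := W.tr_eq_zero (W.mul_mem (W.cl_mem hτ) ha) (by omega)
    rw [h2, zero_smul, sub_zero, W.act_opL hθ ha, h q (by omega) b hb, map_zero, mul_zero]

end Base

variable {k₀ : Type u} [Field k₀] {𝒱₀ : VarClass k₀} {C₀ : ChowTheory.{u, v} 𝒱₀}
  {K : Type u'} [Field K] {𝒱 : VarClass K} {C : ChowTheory.{u', v'} 𝒱}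
  {W₀ : WeilTheory.{u, v, w} C₀} {W : WeilTheory.{u', v', w'} C} {E : BaseExtension C₀ C}
  {F : Family C₀} {N : Kernels C}

/-- If the Abel–Jacobi invariant of a class with a pure weight is zero, its spread is homologically
trivial: **the infinitesimal invariant is detected by divisors**. -/
lemma cl_spread (hE : IsExtension W₀ W E) (hN : IsAJKernel W N) (hD : Jan.HomEqNum W₀)
    (hL : ∀ X, LefschetzStd W₀ X) {X T : 𝒱₀.Obj} {τ : C.CH (E.obj T)}
    (hτ : IsGenericPoint E T τ) {j m : ℕ} (hm : m + 1 = 2 * j) {θ : C₀.CH (X.prod X)}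
    (hθ : θ ∈ C₀.gr (X.prod X) X.dim) (hk : ∀ q, q ≠ m → Kill W₀ θ q) {y : C₀.CH (T.prod X)}
    (hy : y ∈ C₀.gr (T.prod X) j) (hfix : C₀.comp y θ = y)
    (hx : C.act (E.corr T X y) τ ∈ N (E.obj X) j) : W₀.cl _ y = 0 := by
  have hdX := hE.dim X
  have hdT := hE.dim T
  by_cases hjX : X.dim < j
  · refine cl_eq_zero W₀ fun n a ha => ?_
    rw [← hfix, W₀.act_comp _ hθ]
    by_cases hn : n + 2 * j < 2 * T.dim
    · rw [act_eq_zero_H hy ha hn, map_zero]
    · have h2 : W₀.act y a ∈ W₀.gr X (n + 2 * j - 2 * T.dim) := act_mem_H hy ha (by omega)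
      by_cases hn' : n + 2 * j - 2 * T.dim = m
      · rw [W₀.gr_eq_bot X _ (by omega), Submodule.mem_bot] at h2
        rw [h2, map_zero]
      · exact hk _ hn' _ h2
  refine cl_eq_zero W₀ fun n a ha => ?_
  have hya : W₀.act y a = W₀.act θ (W₀.act y a) := by
    conv_lhs => rw [← hfix]
    rw [W₀.act_comp _ hθ]
  by_cases hn : n + 2 * j < 2 * T.dim
  · exact act_eq_zero_H hy ha hn
  have h2 : W₀.act y a ∈ W₀.gr X (n + 2 * j - 2 * T.dim) := act_mem_H hy ha (by omega)
  by_cases hn' : n + 2 * j - 2 * T.dim = m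
  swap
  · rw [hya]
    exact hk _ hn' _ h2
  have hnT : n + 1 = 2 * T.dim := by omega
  obtain ⟨σ, hσ, hs⟩ := Jan.exists_genInverse hD (p := j) (q := X.dim + T.dim - j) (by omega) hy
  obtain ⟨κ, hκ, hinj⟩ := exists_lower (hL T) hnT
  have hσ' : σ ∈ C₀.gr (X.prod T) (X.dim + T.dim - j) := hσ
  have hsκ : C₀.comp σ κ ∈ C₀.gr (X.prod T) (X.dim + 1 - j) := C₀.comp_mem hσ' hκ (by omega)
  have hN1 : C.act (E.corr X T (C₀.comp σ κ)) (C.act (E.corr T X y) τ) = 0 := by
    refine hN.divisor _ _ (hN.corr _ _ _ j 1 _ ⟨X.dim + 1 - j, ?_, hE.corr_mem hsκ⟩ hx)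
    omega
  rw [← C.act_comp, ← hE.corr_comp] at hN1
  have hvert := hτ.vertical T _ hN1
  have h3 := kill_vertical (W := W₀) hvert (n := n) (by omega) a ha
  rw [W₀.act_comp _ hsκ, W₀.act_comp _ hκ] at h3
  have h4 : W₀.act σ (W₀.act y a) ∈ W₀.gr T n := act_mem_H hσ' h2 (by omega)
  have h5 := hinj _ h4 h3
  rw [← hs, h5, map_zero]

/-- cycles which are homologically trivial on the total space: the Abel–Jacobi invariant is
constant along `T` -/
lemma const (hE : IsExtension W₀ W E) (hN : IsAJKernel W N) {X T : 𝒱₀.Obj}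
    {τ : C.CH (E.obj T)} (hτ : IsGenericPoint E T τ) {t₀ : C₀.CH T} (ht : t₀ ∈ C₀.gr T T.dim)
    (ht1 : C₀.deg T t₀ = 1) {j : ℕ} {y : C₀.CH (T.prod X)} (hj : 0 < j)
    (hy : y ∈ C₀.gr (T.prod X) j) (hcl : W₀.cl _ y = 0)
    (hx : C.act (E.corr T X y) τ ∈ N (E.obj X) j) : C₀.act y t₀ ∈ E.restrict N X j := by
  have hdX := hE.dim X
  have hdT := hE.dim T
  change E.ch X (C₀.act y t₀) ∈ N (E.obj X) j
  rw [hE.ch_act]
  have hch1 : C.deg _ (E.ch T t₀) = 1 := by rw [(hE.ch T).deg, ht1]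
  have hchm : E.ch T t₀ ∈ C.gr (E.obj T) (E.obj T).dim := by rw [hdT]; exact hE.ch_mem ht
  have hτm : τ ∈ C.gr (E.obj T) (E.obj T).dim := hτ.mem
  have h1 : W.cl _ (τ - E.ch T t₀) = 0 := by
    have h := top_eq hchm hch1 (W.cl_mem hτm)
    have hdeg : C.deg _ τ = 1 := hτ.deg
    rw [W.tr_cl, hdeg, Rat.cast_one, one_smul] at h
    rw [map_sub, h, sub_self]
  have h2 : C.act (E.corr T X y) (τ - E.ch T t₀) ∈ N (E.obj X) j := by
    rw [← act_evalC]
    refine hN.kills _ _ _ j j (2 * j - 1) _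
      ⟨_, rfl, evalC_mem _ (Submodule.sub_mem _ hτm hchm)⟩ (by omega) ?_ ?_
    · refine eq_zero_of_prod _ fun p q hpq a ha b hb => ?_
      rw [actH_evalC, h1, zero_mul, map_zero, zero_smul]
    · refine homTrivial_mk (hE.corr_mem hy) (cl_eq_zero W fun n => ?_)
      refine (hE.kill _ _ _ n).2 fun a _ => ?_
      rw [W₀.act_apply, hcl, zero_mul, map_zero]
  have h3 := Submodule.sub_mem _ hx h2
  rwa [map_sub, sub_sub_cancel] at h3

/-- The Abel–Jacobi maps are injective on the part of weight `2j - 1`. -/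
theorem aj (hE : IsExtension W₀ W E) (hS : HasSpreads E) (hN : IsAJKernel W N)
    (hD : Jan.HomEqNum W₀) (hL : ∀ X, LefschetzStd W₀ X)
    (hpt : ∀ T : 𝒱₀.Obj, ∃ t₀ ∈ C₀.gr T T.dim, C₀.deg T t₀ = 1)
    (hF : IsBBAJ W₀ (E.restrict N) id F) {X : 𝒱₀.Obj} {π : ℕ → C₀.CH (X.prod X)}
    (hπ : W₀.IsCK X π) {j m : ℕ} (hm : m + 1 = 2 * j) {x : C.CH (E.obj X)}
    (hx : x ∈ N (E.obj X) j) (hfix : C.act (E.corr X X (π m)) x = x) : x = 0 := by
  obtain ⟨T, τ, hτ, y₁, hy₁, hyx₁⟩ := hS X j x (hN.hom _ _ _ hx).1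
  obtain ⟨t₀, ht, ht1⟩ := hpt T
  set y := C₀.comp y₁ (π m) with hydef
  have hy : y ∈ C₀.gr (T.prod X) j := C₀.comp_mem hy₁ (hπ.mem m) rfl
  have hyπ : C₀.comp y (π m) = y := by rw [hydef, C₀.comp_assoc, hπ.idem]
  have hyx : C.act (E.corr T X y) τ = x := by
    have h1 : C.act (E.corr T X y₁) τ = x := hyx₁
    rw [hydef, hE.corr_comp, C.act_comp, h1, hfix]
  have hk : ∀ q, q ≠ m → Kill W₀ (π m) q := fun q hq a ha => by rw [hπ.proj m q a ha, if_neg hq]
  have hcl : W₀.cl _ y = 0 := cl_spread hE hN hD hL hτ hm (hπ.mem m) hk hy hyπ (by rwa [hyx])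
  have hc := const hE hN hτ ht ht1 (j := j) (by omega) hy hcl (by rwa [hyx])
  have h1 : y ∈ F (T.prod X) j 1 := (hF.one _ _ _).2 ⟨hy, hcl⟩
  -- the constant part
  have h2 : C₀.pull (snd T X) (C₀.act y t₀) ∈ F (T.prod X) j 2 := by
    have h3 := hF.corr X (T.prod X) (C₀.cograph (snd T X)) j j 2 _
      ⟨X.dim, rfl, C₀.cograph_mem _⟩ ((hF.two X j _).2 hc)
    change C₀.act (C₀.cograph (snd T X)) _ ∈ F (T.prod X) j 2 at h3
    rwa [C₀.act_cograph] at h3
  have h3 : C₀.comp (C₀.pull (snd T X) (C₀.act y t₀)) (π m) ∈ F (T.prod X) j 2 := by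
    rw [← C₀.act_opL]
    exact hF.corr (T.prod X) (T.prod X) (C₀.opL T (π m)) j j 2 _
      ⟨_, rfl, C₀.opL_mem (hπ.mem m)⟩ h2
  have h4 : C₀.act (C₀.comp (varC C₀ T X t₀) (C₀.opL T (π m))) y ∈ F (T.prod X) j 2 :=
    hF.motivic (T.prod X) (T.prod X) _ j j m 1 y
      ⟨_, rfl, C₀.comp_mem (varC_mem X ht) (C₀.opL_mem (hπ.mem m)) rfl⟩ hm
      (kill_var_opL ht1 ht (hπ.mem m) fun q hq => hk q (by omega)) h1
  have h5 : y ∈ F (T.prod X) j 2 := by
    have h6 := Submodule.add_mem _ h4 h3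
    have h7 : ∀ a b : C₀.CH (T.prod X), C₀.comp (a - b) (π m) =
        C₀.comp a (π m) - C₀.comp b (π m) := by
      intro a b
      rw [← C₀.act_opL, ← C₀.act_opL, ← C₀.act_opL, map_sub]
    rwa [C₀.act_comp, act_varC, C₀.act_opL, h7, hyπ, sub_add_cancel] at h6
  have h6 := hF.weak.iterate (hπ.mem m) (n := 2) (fun q hq => hk q (by omega))
    (fun z => z = y) (fun z hz => by rw [hz, hyπ]) h5 rfl
  rw [← hyx, ← h6, IsExtension.corr_zero, C.act_zero, LinearMap.zero_apply]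

end Pool.Agent.H837.Const
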