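import Pool.Graph.R_pool_sql_team_seeded_47a924f7.T6.H15.BB.Middle
import Pool.Agent.H837.Jan.Regular
import Pool.Agent.H837.Const.Ext

/-!
# Vanishing theorems for cycles over `K`
-/

open CategoryTheory CategoryTheory.Limits AlgebraicGeometry
open Pool.Agent.H914 Pool.Agent.H914.VarClass Pool.Agent.H914.VarClass.Obj Pool.Agent.R903
open Pool.Agent.R903.WeilTheory Pool.Agent.T6.H15.BB

universe u v w u' v' w' t

namespace Pool.Agent.H837.Const

section Base

variable {k : Type u} [Field k] {𝒱 : VarClass k} {C : ChowTheory.{u, v} 𝒱}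
  {W : WeilTheory.{u, v, w} C}

/-- a linear map is zero in degree `m` on a product if it is zero on products of classes -/
lemma eq_zero_of_prod {X Y : 𝒱.Obj} {V : Type*} [AddCommGroup V] [Module W.K V]
    (A : W.H (X.prod Y) →ₗ[W.K] V) {m : ℕ}
    (h : ∀ p q, p + q = m → ∀ a ∈ W.gr X p, ∀ b ∈ W.gr Y q,
      A (W.map (fst X Y) a * W.map (snd X Y) b) = 0) :
    ∀ v ∈ W.gr (X.prod Y) m, A v = 0 := by
  have key : ∀ c, A (projH W (X.prod Y) m c) = 0 := by
    intro c
    refine W.kunneth_induction (p := fun c => A (projH W (X.prod Y) m c) = 0) ?_ ?_ c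
    · intro a b ha hb
      rw [map_add, map_add, ha, hb, add_zero]
    · intro p q a ha b hb
      rw [projH_apply (W.mul_mem (W.map_mem _ ha) (W.map_mem _ hb))]
      split_ifs with hpq
      · exact h p q hpq a ha b hb
      · exact map_zero _
  intro v hv
  have h1 := key v
  rwa [projH_apply hv, if_pos rfl] at h1

lemma kill_opL {T V : 𝒱.Obj} {θ : C.CH (V.prod V)} (hθ : θ ∈ C.gr (V.prod V) V.dim) {m : ℕ}
    (h : ∀ q ≤ m, Kill W θ q) : Kill W (C.opL T θ) m := by
  refine eq_zero_of_prod _ fun p q hpq a ha b hb => ?_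
  rw [W.act_opL hθ ha, h q (by omega) b hb, map_zero, mul_zero]

/-- the class of a zero-cycle of degree one generates the cohomology of degree `2 dim X` -/
lemma top_eq {X : 𝒱.Obj} {τ : C.CH X} (hτ : τ ∈ C.gr X X.dim) (h1 : C.deg X τ = 1) {a : W.H X}
    (ha : a ∈ W.gr X (2 * X.dim)) : a = W.tr X a • W.cl X τ := by
  rw [← sub_eq_zero]
  refine eq_zero_of_tr (Submodule.sub_mem _ ha (Submodule.smul_mem _ _ (W.cl_mem hτ))) ?_
  rw [map_sub, map_smul, W.tr_cl, h1, Rat.cast_one, smul_eq_mul, mul_one, sub_self]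

lemma kill_sub {X Y : 𝒱.Obj} {γ δ : C.CH (X.prod Y)} {m : ℕ} :
    Kill W (γ - δ) m ↔ ∀ a ∈ W.gr X m, W.act γ a = W.act δ a := by
  constructor
  · intro h a ha
    have := h a ha
    rwa [W.act_sub, LinearMap.sub_apply, sub_eq_zero] at this
  · intro h a ha
    rw [W.act_sub, LinearMap.sub_apply, h a ha, sub_self]

/-- the properties of the filtration over the small field which are used -/
structure Weak (W : WeilTheory.{u, v, w} C) (F : Family C) : Prop where
  zero : ∀ (X : 𝒱.Obj) (j : ℕ) (x : C.CH X), x ∈ F X j 0 ↔ x ∈ C.gr X j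
  one : ∀ (X : 𝒱.Obj) (j : ℕ) (x : C.CH X), x ∈ F X j 1 ↔ x ∈ C.gr X j ∧ W.cl X x = 0
  top : ∀ (X : 𝒱.Obj) (j : ℕ) (x : C.CH X), x ∈ F X j (j + 1) → x = 0
  anti : ∀ (X : 𝒱.Obj) (j r : ℕ), F X j (r + 1) ≤ F X j r
  motivic : ∀ (X : 𝒱.Obj) (j m r : ℕ), m + r = 2 * j → ∀ γ ∈ C.gr (X.prod X) X.dim,
    Kill W γ m → ∀ x ∈ F X j r, C.act γ x ∈ F X j (r + 1)

lemma IsBBAJ.weak {N : Kernels C} {F : Family C} (h : IsBBAJ W N id F) : Weak W F where
  zero X j x := h.zero X j x
  one X j x := h.one X j x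
  top X j x hx := h.top X j x hx
  anti X j r := h.anti X j r
  motivic X j m r hm γ hγ h0 x hx := h.motivic X X γ j j m r x ⟨X.dim, rfl, hγ⟩ hm h0 hx

namespace Weak

variable {F : Family C} (h : Weak W F)
include h

lemma anti' (X : 𝒱.Obj) (j : ℕ) {r s : ℕ} (hrs : r ≤ s) : F X j s ≤ F X j r := by
  induction s, hrs using Nat.le_induction with
  | base => exact le_rfl
  | succ s _ ih => exact (h.anti X j s).trans ih

lemma top' {X : 𝒱.Obj} {j r : ℕ} (hr : j + 1 ≤ r) {x : C.CH X} (hx : x ∈ F X j r) : x = 0 :=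
  h.top X j x (h.anti' X j hr hx)

/-- Iterated composition with a correspondence which annihilates the cohomology in low degrees. -/
lemma iterate {T V : 𝒱.Obj} {θ : C.CH (V.prod V)} (hθ : θ ∈ C.gr (V.prod V) V.dim)
    {c n : ℕ} (hk : ∀ q, q + n ≤ 2 * c → Kill W θ q) (P : C.CH (T.prod V) → Prop)
    (hP : ∀ z, P z → P (C.comp z θ)) {z : C.CH (T.prod V)} (hz : z ∈ F (T.prod V) c n)
    (hPz : P z) : P 0 := by
  have key : ∀ r, n ≤ r → ∃ z ∈ F (T.prod V) c r, P z := by
    intro r hr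
    induction r, hr using Nat.le_induction with
    | base => exact ⟨z, hz, hPz⟩
    | succ r hr ih =>
      obtain ⟨z, hz, hPz⟩ := ih
      refine ⟨C.comp z θ, ?_, hP z hPz⟩
      by_cases hrc : r ≤ 2 * c
      · have h1 := h.motivic (T.prod V) c (2 * c - r) r (by omega) _ (C.opL_mem (X := T) hθ)
          (kill_opL hθ fun q hq => hk q (by omega)) z hz
        rwa [C.act_opL] at h1
      · rw [h.top' (by omega) hz, C.zero_comp]
        exact Submodule.zero_mem _
  obtain ⟨z, hz, hPz⟩ := key (max (c + 1) n) (le_max_right _ _)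
  rwa [h.top' (le_max_left _ _) hz] at hPz

lemma eigUp : EigUp W := by
  intro X δ hδ i c hic x hx hcx
  have key : ∀ n, n ≤ i → x ∈ F X i (n + 1) := by
    intro n
    induction n with
    | zero => intro _; exact (h.one X i x).2 hx
    | succ n ih =>
      intro hn
      have h1 := h.motivic X i (2 * i - (n + 1)) (n + 1) (by omega)
        (δ - ((2 * i - (n + 1) : ℕ) : ℚ) • C.diagC X)
        (Submodule.sub_mem _ hδ.1 (Submodule.smul_mem _ _ (C.diagC_mem X)))
        (kills_sub_smul hδ _) x (ih (by omega))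
      have h2 : C.act (δ - ((2 * i - (n + 1) : ℕ) : ℚ) • C.diagC X) x =
          ((c : ℚ) - ((2 * i - (n + 1) : ℕ) : ℚ)) • x := by
        rw [C.act_sub, C.act_smul, LinearMap.sub_apply, LinearMap.smul_apply, C.act_diagC, hcx,
          sub_smul]
      rw [h2] at h1
      refine (Submodule.smul_mem_iff _ ?_).1 h1
      rw [sub_ne_zero]
      intro h4
      rw [Nat.cast_inj] at h4
      omega
  exact h.top X i x (key i le_rfl)

lemma goodOn (hL : ∀ X, LefschetzStd W X) : GoodOn W (fun _ => True) :=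
  (h.eigUp.good fun X j => exists_proj_of_lefschetz (hL X) j).goodOn hL

end Weak

end Base

variable {k₀ : Type u} [Field k₀] {𝒱₀ : VarClass k₀} {C₀ : ChowTheory.{u, v} 𝒱₀}
  {K : Type u'} [Field K] {𝒱 : VarClass K} {C : ChowTheory.{u', v'} 𝒱}
  {W₀ : WeilTheory.{u, v, w} C₀} {W : WeilTheory.{u', v', w'} C} {E : BaseExtension C₀ C}
  {F : Family C₀}

section

variable (hE : IsExtension W₀ W E)
include hE

lemma IsExtension.isCK {X : 𝒱₀.Obj} {π : ℕ → C₀.CH (X.prod X)} (h : W₀.IsCK X π) :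
    W.IsCK (E.obj X) (fun j => E.corr X X (π j)) where
  mem j := by rw [hE.dim]; exact hE.corr_mem (h.mem j)
  idem j := by rw [← hE.corr_comp, h.idem]
  orth i j hij := by rw [← hE.corr_comp, h.orth i j hij, IsExtension.corr_zero]
  sum := by rw [hE.dim, ← IsExtension.corr_sum, h.sum, hE.corr_diagC]
  proj j l a ha := by
    split_ifs with hl
    · have h1 : Kill W₀ (π j - C₀.diagC X) l := by
        rw [kill_sub]
        intro a ha
        rw [h.proj j l a ha, if_pos hl, W₀.act_diagC]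
      have h2 := (hE.kill X X _ l).2 h1
      rw [IsExtension.corr_sub, hE.corr_diagC, kill_sub] at h2
      rw [h2 a ha, W.act_diagC]
    · refine (hE.kill X X _ l).2 ?_ a ha
      intro a ha
      rw [h.proj j l a ha, if_neg hl]

/-- the spread of a homologically trivial cycle acts as zero on the cohomology of highest degree -/
lemma kill_top {T V : 𝒱₀.Obj} {τ : C.CH (E.obj T)} (hτ : IsGenericPoint E T τ)
    {y : C₀.CH (T.prod V)} (hy : W.cl _ (C.act (E.corr T V y) τ) = 0) :
    Kill W₀ y (2 * T.dim) := by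
  refine (hE.kill T V y _).1 fun a ha => ?_
  rw [← hE.dim] at ha
  rw [top_eq hτ.mem hτ.deg ha, map_smul, ← W.cl_act, hy, smul_zero]

end

section

variable (hE : IsExtension W₀ W E) (hS : HasSpreads E) (hF : Weak W₀ F)
include hE hS hF

/-- the basic vanishing theorem -/
theorem van {V : 𝒱₀.Obj} {θ : C₀.CH (V.prod V)} (hθ : θ ∈ C₀.gr (V.prod V) V.dim) {w c : ℕ}
    (hw : 2 * c ≤ w) (hk : ∀ n, n ≠ w → Kill W₀ θ n) {x : C.CH (E.obj V)} (hx : x ∈ C.gr _ c)
    (hcl : W.cl _ x = 0) (hfix : C.act (E.corr V V θ) x = x) : x = 0 := by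
  obtain ⟨T, τ, hτ, y, hy, hyx⟩ := hS V c x hx
  have hy' : y ∈ C₀.gr (T.prod V) c := hy
  have hyx' : C.act (E.corr T V y) τ = x := hyx
  have hz : C₀.comp y θ ∈ C₀.gr (T.prod V) c := C₀.comp_mem hy' hθ rfl
  have hcl' : W₀.cl _ (C₀.comp y θ) = 0 := by
    refine cl_eq_zero W₀ fun n a ha => ?_
    rw [W₀.act_comp _ hθ]
    by_cases hn : n + 2 * c < 2 * T.dim
    · rw [act_eq_zero_H hy' ha hn, map_zero]
    · have h1 : W₀.act y a ∈ W₀.gr V (n + 2 * c - 2 * T.dim) :=
        act_mem_H hy' ha (by omega)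
      by_cases hn' : n + 2 * c - 2 * T.dim = w
      · by_cases hn'' : n = 2 * T.dim
        · subst hn''
          rw [← hyx'] at hcl
          rw [kill_top hE hτ hcl a ha, map_zero]
        · rw [W₀.gr_eq_bot T n (by omega), Submodule.mem_bot] at ha
          rw [ha, map_zero, map_zero]
      · exact hk _ hn' _ h1
  have h1 : C₀.comp y θ ∈ F (T.prod V) c 1 := (hF.one _ _ _).2 ⟨hz, hcl'⟩
  have hstep : ∀ z, C.act (E.corr T V z) τ = x → C.act (E.corr T V (C₀.comp z θ)) τ = x := by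
    intro z hz
    rw [hE.corr_comp, C.act_comp, hz, hfix]
  have h2 := hF.iterate hθ (n := 1) (fun q hq => hk q (by omega)) _ hstep h1 (hstep y hyx')
  rw [← h2, IsExtension.corr_zero, C.act_zero, LinearMap.zero_apply]

/-- The blocks of correspondences over `K` which raise the weight vanish, and so do the
homologically trivial blocks which preserve the weight. -/
theorem block {X Y : 𝒱₀.Obj} {π : ℕ → C₀.CH (X.prod X)} {ρ : ℕ → C₀.CH (Y.prod Y)}
    (h : W₀.IsCK X π) (h' : W₀.IsCK Y ρ) {a b c : ℕ} (ha : a ≤ 2 * X.dim)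
    {γ : C.CH ((E.obj X).prod (E.obj Y))} (hγ : γ ∈ C.gr _ c)
    (hc : 2 * c + a < 2 * X.dim + b ∨ (2 * c + a = 2 * X.dim + b ∧ Kill W γ a)) :
    C.comp (C.comp (E.corr X X (π a)) γ) (E.corr Y Y (ρ b)) = 0 := by
  have hiso := hE.isIso X Y
  have hπ := hE.isCK h
  have hρ := hE.isCK h'
  have hdX := hE.dim X
  set γ' := C.comp (C.comp (E.corr X X (π a)) γ) (E.corr Y Y (ρ b)) with hγ'
  have hmem : γ' ∈ C.gr _ c := C.comp_mem (C.comp_mem (hπ.mem a) hγ (add_comm _ _)) (hρ.mem b) rfl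
  set θ := C₀.comp (C₀.opR (π a) Y) (C₀.opL X (ρ b)) with hθ
  have hRL : ∀ z, C.act (E.corr _ _ θ) (C.pull (E.comparison X Y) z) =
      C.pull (E.comparison X Y) (C.comp (C.comp (E.corr X X (π a)) z) (E.corr Y Y (ρ b))) := by
    intro z
    rw [hθ, hE.corr_comp, C.act_comp, hE.act_opR, hE.act_opL]
  have hfix : C.comp (C.comp (E.corr X X (π a)) γ') (E.corr Y Y (ρ b)) = γ' := by
    have e1 := hπ.idem a
    have e2 := hρ.idem b
    rw [hγ', ← C.comp_assoc (E.corr X X (π a)) (C.comp (E.corr X X (π a)) γ),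
      ← C.comp_assoc (E.corr X X (π a)) (E.corr X X (π a)) γ, e1,
      C.comp_assoc (C.comp (E.corr X X (π a)) γ), e2]
  have hθmem : θ ∈ C₀.gr _ (X.prod Y).dim := C₀.comp_mem (C₀.opR_mem (h.mem a))
    (C₀.opL_mem (h'.mem b)) rfl
  have hk : ∀ n, n ≠ 2 * X.dim - a + b → Kill W₀ θ n := by
    intro n hn
    refine eq_zero_of_prod _ fun p q hpq x hx y hy => ?_
    have hco : W₀.coact (π a) x = if p + a = 2 * X.dim then x else 0 := by
      by_cases hp : p ≤ 2 * X.dim
      · rw [← W₀.act_transp]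
        exact act_transp_proj (h.mem a) (h.proj a) hx hp
      · rw [W₀.gr_eq_bot X p (by omega), Submodule.mem_bot] at hx
        rw [hx, coact, map_zero, mul_zero, map_zero, ite_self]
    rw [hθ, W₀.act_comp _ (C₀.opL_mem (h'.mem b)), W₀.act_opR, hco]
    split_ifs with hp
    · rw [W₀.act_opL (h'.mem b) hx, h'.proj b q y hy, if_neg (by omega), map_zero, mul_zero]
    · rw [map_zero, zero_mul, map_zero]
  have hclγ : W.cl _ γ' = 0 := by
    refine cl_eq_zero W fun j v hv => ?_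
    rw [hγ', W.act_comp _ (hρ.mem b), W.act_comp _ hγ, hπ.proj a j v hv]
    split_ifs with hj
    · subst hj
      rcases hc with hc | ⟨_, h0⟩
      · by_cases hj2 : j + 2 * c < 2 * (E.obj X).dim
        · rw [act_eq_zero_H hγ hv hj2, map_zero]
        · have h1 : W.act γ v ∈ W.gr (E.obj Y) (j + 2 * c - 2 * (E.obj X).dim) :=
            act_mem_H hγ hv (by omega)
          rw [hρ.proj b _ _ h1, if_neg (by omega)]
      · rw [h0 v hv, map_zero]
    · rw [map_zero, map_zero]
  have hx0 : C.pull (E.comparison X Y) γ' = 0 := by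
    refine van hE hS hF hθmem (w := 2 * X.dim - a + b) (c := c) (by omega) hk
      (C.pull_mem _ hmem) ?_ ?_
    · rw [W.cl_pull, hclγ, map_zero]
    · rw [hRL, hfix]
  rw [← C.push_pull_iso (E.comparison X Y) γ', hx0, map_zero]

end

end Pool.Agent.H837.Const
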